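import Mathlib

/-!
Definitions: the reduced group C*-algebra of a locally compact group, legally coloured regular
trees, local actions, and the Burger-Mozes groups `U(F)`.
-/

set_option autoImplicit false

open MeasureTheory Topology

namespace Pool.Agent.H243Z.BM

/-! ### The reduced group C*-algebra of a locally compact group -/

section Hilbert

variable {H K : Type} [NormedAddCommGroup H] [InnerProductSpace ℂ H] [CompleteSpace H]
  [NormedAddCommGroup K] [InnerProductSpace ℂ K] [CompleteSpace K]

/-- A star-isomorphism between two (closed star-)algebras `A`, `B` of operators: a bijection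
`A → B` that is additive, complex homogeneous, multiplicative and preserves adjoints. -/
def StarIsomorphic (A : Set (H →L[ℂ] H)) (B : Set (K →L[ℂ] K)) : Prop :=
  ∃ φ : (H →L[ℂ] H) → (K →L[ℂ] K), Set.BijOn φ A B ∧
    (∀ S ∈ A, ∀ T ∈ A, φ (S + T) = φ S + φ T ∧ φ (S * T) = φ S * φ T) ∧
    (∀ S ∈ A, φ (star S) = star (φ S) ∧ ∀ c : ℂ, φ (c • S) = c • φ S)

variable {G : Type} [MeasurableSpace G]

/-- `T` is the image of `f` under the integrated form of the representation `π`, that is
`T = ∫ f(g) π(g) dμ(g)` in the weak sense: `⟨η, T ξ⟩ = ∫ f(g) ⟨η, π(g) ξ⟩ dμ(g)`. -/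
def IsIntegratedForm (μ : Measure G) (π : G → H →L[ℂ] H) (f : G → ℂ) (T : H →L[ℂ] H) : Prop :=
  ∀ ξ η : H, inner ℂ η (T ξ) = ∫ g, f g * inner ℂ η (π g ξ) ∂μ

/-- The norm closure of the image of `L^1(G, μ)` under the integrated form of `π`. -/
def closureImageL1 (μ : Measure G) (π : G → H →L[ℂ] H) : Set (H →L[ℂ] H) :=
  closure {T | ∃ f : G → ℂ, Integrable f μ ∧ IsIntegratedForm μ π f T}

end Hilbert

/-- The left regular representation on `L^2(G, μ)`: `(lam μ g ξ)(x) = ξ(g⁻¹ x)`. -/
noncomputable def lam {G : Type} [Group G] [MeasurableSpace G] [MeasurableMul G] (μ : Measure G)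
    [μ.IsMulLeftInvariant] (g : G) : Lp ℂ 2 μ →L[ℂ] Lp ℂ 2 μ :=
  (Lp.compMeasurePreservingₗᵢ ℂ (fun x : G => g⁻¹ * x)
    (measurePreserving_mul_left μ g⁻¹)).toContinuousLinearMap

section CStar

variable (G : Type) [Group G] [TopologicalSpace G] [IsTopologicalGroup G] [LocallyCompactSpace G]
  [MeasurableSpace G] [BorelSpace G]

/-- The reduced group C*-algebra of a locally compact group: the norm closure of the image of
`L^1(G)` under the left regular representation on `L^2(G)`, for a left Haar measure. -/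
def ReducedCStar : Set (Lp ℂ 2 (Measure.haar : Measure G) →L[ℂ] Lp ℂ 2 (Measure.haar : Measure G)) :=
  closureImageL1 Measure.haar (lam Measure.haar)

/-- The reduced group C*-algebras of `G` and `G'` are star-isomorphic. -/
def ReducedCStarIso (G' : Type) [Group G'] [TopologicalSpace G'] [IsTopologicalGroup G']
    [LocallyCompactSpace G'] [MeasurableSpace G'] [BorelSpace G'] : Prop :=
  StarIsomorphic (ReducedCStar G) (ReducedCStar G')

end CStar

/-! ### Legally coloured regular trees and Burger-Mozes groups -/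

/-- A `d`-regular tree with a legal colouring: at each vertex `v` the colouring restricts to a
bijection from the edges at `v` (identified with the neighbours of `v`) onto the `d` colours.
The values of `col` on pairs that are not edges play no role. -/
structure LegalTree (d : ℕ) where
  /-- the vertices -/
  V : Type
  /-- the graph -/
  graph : SimpleGraph V
  isTree : graph.IsTree
  /-- the colouring of the edges -/
  col : Sym2 V → Fin d
  legal : ∀ v : V, Function.Bijective (fun w : graph.neighborSet v => col s(v, w.1))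

namespace LegalTree

variable {d : ℕ} (T : LegalTree d)

/-- The bijection `c|E(v)` from the edges at `v` to the colours. -/
noncomputable def colEquiv (v : T.V) : T.graph.neighborSet v ≃ Fin d :=
  Equiv.ofBijective _ (T.legal v)

/-- The automorphism group of the tree. -/
def Aut : Type := T.graph ≃g T.graph

instance : Group T.Aut := RelIso.instGroup

/-- An automorphism as a graph isomorphism. -/
def Aut.iso {T : LegalTree d} (g : T.Aut) : T.graph ≃g T.graph := g

/-- The topology of pointwise convergence on vertices (the vertex set being discrete). -/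
instance : TopologicalSpace T.Aut :=
  ⨅ v : T.V, TopologicalSpace.induced (fun g : T.Aut => g.iso v) ⊥

/-- The local action `σ(g, v) = c|E(gv) ∘ g ∘ (c|E(v))⁻¹`. -/
noncomputable def localAction (g : T.Aut) (v : T.V) : Equiv.Perm (Fin d) :=
  (T.colEquiv v).symm.trans ((g.iso.mapNeighborSet v).trans (T.colEquiv (g.iso v)))

theorem mul_apply (g h : T.Aut) (v : T.V) : (g * h).iso v = g.iso (h.iso v) := rfl

theorem one_apply (v : T.V) : (1 : T.Aut).iso v = v := rfl

theorem inv_apply (g : T.Aut) (v : T.V) : (g⁻¹).iso v = g.iso.symm v := rfl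

theorem localAction_col (g : T.Aut) {v w : T.V} (h : T.graph.Adj v w) :
    T.localAction g v (T.col s(v, w)) = T.col s(g.iso v, g.iso w) := by
  have : T.col s(v, w) = T.colEquiv v ⟨w, h⟩ := rfl
  rw [this]
  simp only [localAction, Equiv.trans_apply, Equiv.symm_apply_apply]
  rfl

theorem exists_col (v : T.V) (c : Fin d) : ∃ w, T.graph.Adj v w ∧ T.col s(v, w) = c := by
  obtain ⟨w, hw⟩ := (T.legal v).2 c
  exact ⟨w.1, w.2, hw⟩

theorem localAction_mul (g h : T.Aut) (v : T.V) :
    T.localAction (g * h) v = T.localAction g (h.iso v) * T.localAction h v := by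
  ext c
  obtain ⟨w, hw, rfl⟩ := T.exists_col v c
  rw [Equiv.Perm.mul_apply, T.localAction_col _ hw, T.localAction_col _ hw,
    T.localAction_col _ (h.iso.map_rel_iff.2 hw)]
  rfl

theorem localAction_one (v : T.V) : T.localAction 1 v = 1 := by
  ext c
  obtain ⟨w, hw, rfl⟩ := T.exists_col v c
  rw [T.localAction_col _ hw]
  rfl

/-- The Burger-Mozes group `U(F)`: automorphisms all of whose local actions lie in `F`. -/
def U (F : Subgroup (Equiv.Perm (Fin d))) : Subgroup T.Aut where
  carrier := {g | ∀ v, T.localAction g v ∈ F}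
  one_mem' v := by rw [T.localAction_one]; exact F.one_mem
  mul_mem' {g h} hg hh v := by rw [T.localAction_mul]; exact F.mul_mem (hg _) (hh _)
  inv_mem' {g} hg v := by
    have h1 := T.localAction_mul g g⁻¹ v
    rw [mul_inv_cancel, T.localAction_one] at h1
    rw [eq_inv_of_mul_eq_one_right h1.symm]
    exact F.inv_mem (hg _)

theorem isOpen_eval (v w : T.V) : IsOpen {g : T.Aut | g.iso v = w} := by
  let _ : TopologicalSpace T.V := ⊥
  have : DiscreteTopology T.V := ⟨rfl⟩
  have : Continuous (fun g : T.Aut => g.iso v) :=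
    continuous_iInf_dom (i := v) continuous_induced_dom
  exact (isOpen_discrete {w}).preimage this

theorem continuous_to {X : Type} [TopologicalSpace X] (f : X → T.Aut)
    (h : ∀ v w, IsOpen {x | (f x).iso v = w}) : Continuous f := by
  let _ : TopologicalSpace T.V := ⊥
  have : DiscreteTopology T.V := ⟨rfl⟩
  refine continuous_iInf_rng.2 fun v => continuous_induced_rng.2 ?_
  exact continuous_discrete_rng.2 fun w => h v w

instance : IsTopologicalGroup T.Aut where
  continuous_mul := by
    refine T.continuous_to _ fun v w => ?_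
    have : {x : T.Aut × T.Aut | (x.1 * x.2).iso v = w} =
        ⋃ u, ({g : T.Aut | g.iso u = w} ×ˢ {g : T.Aut | g.iso v = u}) := by
      ext x
      simp only [Set.mem_ofPred_eq, Set.mem_iUnion, Set.mem_prod, mul_apply]
      exact ⟨fun h => ⟨_, h, rfl⟩, fun ⟨u, h1, h2⟩ => h2 ▸ h1⟩
    rw [this]
    exact isOpen_iUnion fun u => (T.isOpen_eval _ _).prod (T.isOpen_eval _ _)
  continuous_inv := by
    refine T.continuous_to _ fun v w => ?_
    have : {x : T.Aut | (x⁻¹).iso v = w} = {x : T.Aut | x.iso w = v} := by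
      ext x
      simp only [Set.mem_ofPred_eq, inv_apply]
      exact ⟨fun h => by rw [← h]; simp, fun h => by rw [← h]; simp⟩
    rw [this]
    exact T.isOpen_eval _ _

theorem finite_nbhd (v : T.V) : (T.graph.neighborSet v).Finite :=
  Set.finite_coe_iff.1 (Finite.of_equiv _ (T.colEquiv v).symm)

theorem finite_sphere (n : ℕ) : ∀ v : T.V, {w | ∃ p : T.graph.Walk v w, p.length = n}.Finite := by
  induction n with
  | zero =>
    intro v
    refine (Set.finite_singleton v).subset ?_
    rintro w ⟨p, hp⟩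
    exact (SimpleGraph.Walk.eq_of_length_eq_zero hp).symm
  | succ n ih =>
    intro v
    refine ((T.finite_nbhd v).biUnion (fun u _ => ih u)).subset ?_
    rintro w ⟨p, hp⟩
    cases p with
    | nil => simp at hp
    | cons h q =>
      simp only [Set.mem_iUnion]
      exact ⟨_, h, q, by simpa using hp⟩

theorem finite_orbit (v₀ v : T.V) : {w | ∃ g : T.Aut, g.iso v₀ = v₀ ∧ g.iso v = w}.Finite := by
  obtain ⟨p⟩ := T.isTree.connected.preconnected v₀ v
  refine (T.finite_sphere p.length v₀).subset ?_
  rintro w ⟨g, h0, rfl⟩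
  exact ⟨(p.map g.iso.toHom).copy h0 rfl, by simp⟩

theorem isCompact_stab (v₀ : T.V) : IsCompact {g : T.Aut | g.iso v₀ = v₀} := by
  rw [isCompact_iff_ultrafilter_le_nhds]
  intro 𝒰 h𝒰
  have hK : {g : T.Aut | g.iso v₀ = v₀} ∈ 𝒰 := Filter.le_principal_iff.1 h𝒰
  have key : ∀ (φ : T.Aut → T.Aut), (∀ g, g.iso v₀ = v₀ → (φ g).iso v₀ = v₀) →
      ∀ v, ∃ w, {g : T.Aut | (φ g).iso v = w} ∈ 𝒰 := by
    intro φ hφ v
    have h1 : (⋃ w ∈ {w | ∃ g : T.Aut, g.iso v₀ = v₀ ∧ g.iso v = w},
        {g : T.Aut | (φ g).iso v = w}) ∈ 𝒰 := by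
      refine Filter.mem_of_superset hK fun g hg => ?_
      simp only [Set.mem_iUnion]
      exact ⟨_, ⟨φ g, hφ g hg, rfl⟩, rfl⟩
    obtain ⟨w, -, hw⟩ := (Ultrafilter.finite_biUnion_mem_iff (T.finite_orbit v₀ v)).1 h1
    exact ⟨w, hw⟩
  choose f hf using key id (fun g h => h)
  choose f' hf' using key (fun g => g⁻¹) (fun g h => by
    rw [inv_apply]; conv_lhs => rw [← h]
    simp)
  have e1 : ∀ v, f' (f v) = v := fun v => by
    obtain ⟨g, h1, h2⟩ := Ultrafilter.nonempty_of_mem (Filter.inter_mem (hf v) (hf' (f v)))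
    simp only [Set.mem_ofPred_eq, id, inv_apply] at h1 h2
    rw [← h2, ← h1]; simp
  have e2 : ∀ v, f (f' v) = v := fun v => by
    obtain ⟨g, h1, h2⟩ := Ultrafilter.nonempty_of_mem (Filter.inter_mem (hf' v) (hf (f' v)))
    simp only [Set.mem_ofPred_eq, id, inv_apply] at h1 h2
    rw [← h2, ← h1]; simp
  have e3 : ∀ v w, T.graph.Adj (f v) (f w) ↔ T.graph.Adj v w := fun v w => by
    obtain ⟨g, h1, h2⟩ := Ultrafilter.nonempty_of_mem (Filter.inter_mem (hf v) (hf w))
    simp only [Set.mem_ofPred_eq, id] at h1 h2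
    rw [← h2, ← h1]; exact g.iso.map_rel_iff
  let γ : T.Aut := (⟨⟨f, f', e1, e2⟩, fun {a b} => e3 a b⟩ : T.graph ≃g T.graph)
  refine ⟨γ, ?_, ?_⟩
  · obtain ⟨g, h1, h2⟩ := Ultrafilter.nonempty_of_mem (Filter.inter_mem (hf v₀) hK)
    simp only [Set.mem_ofPred_eq, id] at h1 h2
    exact h1.symm.trans h2
  · rw [nhds_iInf]
    refine le_iInf fun v => ?_
    let _ : TopologicalSpace T.V := ⊥
    have : DiscreteTopology T.V := ⟨rfl⟩
    rw [nhds_induced, nhds_discrete, ← Filter.tendsto_iff_comap, Filter.tendsto_pure]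
    exact hf v

instance : LocallyCompactSpace T.Aut := by
  obtain ⟨v₀⟩ := T.isTree.connected.nonempty
  exact (T.isCompact_stab v₀).locallyCompactSpace_of_mem_nhds_of_group
    ((T.isOpen_eval v₀ v₀).mem_nhds (show (1 : T.Aut).iso v₀ = v₀ from rfl))

theorem isClosed_U (F : Subgroup (Equiv.Perm (Fin d))) : IsClosed (T.U F : Set T.Aut) := by
  rw [← isOpen_compl_iff, isOpen_iff_forall_mem_open]
  intro g hg
  obtain ⟨v, hv⟩ := not_forall.1 hg
  refine ⟨{h : T.Aut | h.iso v = g.iso v} ∩
    ⋂ w ∈ T.graph.neighborSet v, {h : T.Aut | h.iso w = g.iso w}, ?_, ?_, ?_⟩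
  · rintro h ⟨h1, h2⟩ hh
    apply hv
    have : T.localAction g v = T.localAction h v := by
      ext c
      obtain ⟨w, hw, rfl⟩ := T.exists_col v c
      have h3 : h.iso w = g.iso w := Set.mem_iInter₂.1 h2 w hw
      rw [T.localAction_col _ hw, T.localAction_col _ hw, h3, show h.iso v = g.iso v from h1]
    rw [this]
    exact hh v
  · exact (T.isOpen_eval _ _).inter ((T.finite_nbhd v).isOpen_biInter fun w _ => T.isOpen_eval _ _)
  · exact ⟨rfl, Set.mem_iInter₂.2 fun w _ => rfl⟩

/-- The Burger-Mozes group `U(F)` as a type; it carries the subgroup structure, the subspace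
topology and the Borel σ-algebra. -/
def BMGroup (F : Subgroup (Equiv.Perm (Fin d))) : Type := T.U F

variable (F : Subgroup (Equiv.Perm (Fin d)))

instance : Group (T.BMGroup F) := Subgroup.toGroup (T.U F)

instance : TopologicalSpace (T.BMGroup F) := instTopologicalSpaceSubtype

instance : IsTopologicalGroup (T.BMGroup F) := (inferInstance : IsTopologicalGroup (T.U F))

instance : LocallyCompactSpace (T.BMGroup F) := (T.isClosed_U F).locallyCompactSpace

instance : MeasurableSpace (T.BMGroup F) := borel _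

instance : BorelSpace (T.BMGroup F) := ⟨rfl⟩

end LegalTree

/-- `F₁ ≤ Sym(d₁)` and `F₂ ≤ Sym(d₂)` are permutation isomorphic: `d₁ = d₂` and some bijection of
the permuted sets conjugates `F₁` onto `F₂`. -/
def PermIso {d₁ d₂ : ℕ} (F₁ : Subgroup (Equiv.Perm (Fin d₁)))
    (F₂ : Subgroup (Equiv.Perm (Fin d₂))) : Prop :=
  d₁ = d₂ ∧ ∃ e : Fin d₁ ≃ Fin d₂, ∀ σ : Equiv.Perm (Fin d₁), σ ∈ F₁ ↔ e.permCongr σ ∈ F₂

end Pool.Agent.H243Z.BM
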