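import Pool.Agent.H243Z.BM.Defs

set_option autoImplicit false

open MeasureTheory Topology
open scoped ENNReal NNReal

namespace Pool.Agent.H243Z.BM

section Meas

variable {X Y : Type} [MeasurableSpace X] [MeasurableSpace Y] {μ : Measure X} {ν : Measure Y}

theorem exists_isometry (e : X ≃ᵐ Y) (c : ℝ≥0) (hc : c ≠ 0) (h : μ.map e = c • ν) :
    ∃ (W : Lp ℂ 2 ν →ₗᵢ[ℂ] Lp ℂ 2 μ) (s : ℂ), s ≠ 0 ∧ ∀ ξ, W ξ =ᵐ[μ] fun x => s * ξ (e x) := by
  have hmp : MeasurePreserving e μ ((c : ℝ≥0∞) • ν) := ⟨e.measurable, h⟩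
  let A₀ : Lp ℂ 2 ν →L[ℝ] Lp ℂ 2 ((c : ℝ≥0∞) • ν) :=
    Lp.LpToLpOfMeasureLeSMul (c := (c : ℝ≥0∞)) ENNReal.coe_ne_top le_rfl
  have hA₀ : ∀ ξ, A₀ ξ =ᵐ[(c : ℝ≥0∞) • ν] ξ := fun ξ => Lp.coeFn_LpToLpOfMeasureLeSMul _ _ ξ
  let A : Lp ℂ 2 ν →ₗ[ℂ] Lp ℂ 2 ((c : ℝ≥0∞) • ν) :=
    { toFun := A₀
      map_add' := A₀.map_add
      map_smul' := fun a ξ => by
        apply Lp.ext
        have h1 : (a • ξ : Lp ℂ 2 ν) =ᵐ[(c : ℝ≥0∞) • ν] a • (ξ : Y → ℂ) :=
          Measure.smul_absolutelyContinuous.ae_eq (Lp.coeFn_smul a ξ)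
        filter_upwards [hA₀ (a • ξ), h1, Lp.coeFn_smul a (A₀ ξ), hA₀ ξ] with y a1 a2 a3 a4
        rw [a1, a2, RingHom.id_apply, a3, Pi.smul_apply, Pi.smul_apply, a4] }
  have hA : ∀ ξ, A ξ =ᵐ[(c : ℝ≥0∞) • ν] ξ := hA₀
  let B : Lp ℂ 2 ((c : ℝ≥0∞) • ν) →ₗᵢ[ℂ] Lp ℂ 2 μ := Lp.compMeasurePreservingₗᵢ ℂ e hmp
  have hB : ∀ ξ, B ξ =ᵐ[μ] ξ ∘ e := fun ξ => Lp.coeFn_compMeasurePreserving ξ hmp
  have hcpos : (0 : ℝ) < c := by positivity
  have hsq : 0 < Real.sqrt c := Real.sqrt_pos.2 hcpos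
  have hnorm : ∀ ξ, ‖A ξ‖ = Real.sqrt c * ‖ξ‖ := by
    intro ξ
    rw [Lp.norm_def, Lp.norm_def, eLpNorm_congr_ae (hA ξ),
      eLpNorm_smul_measure_of_ne_top (by norm_num), smul_eq_mul, ENNReal.toReal_mul]
    congr 1
    rw [← ENNReal.toReal_rpow, Real.sqrt_eq_rpow]
    norm_num
  let s : ℂ := ((Real.sqrt c)⁻¹ : ℝ)
  have hs : s ≠ 0 := by
    simp only [s, ne_eq, Complex.ofReal_eq_zero, inv_eq_zero]
    exact hsq.ne'
  refine ⟨⟨s • (B.toLinearMap ∘ₗ A), fun ξ => ?_⟩, s, hs, fun ξ => ?_⟩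
  · change ‖s • B (A ξ)‖ = ‖ξ‖
    rw [norm_smul, B.norm_map, hnorm]
    simp only [s, Complex.norm_real, norm_inv, Real.norm_eq_abs, abs_of_pos hsq]
    field_simp
  · change (s • B (A ξ) : Lp ℂ 2 μ) =ᵐ[μ] _
    have h1 := Lp.coeFn_smul s (B (A ξ))
    have h2 : (A ξ : Y → ℂ) ∘ e =ᵐ[μ] (ξ : Y → ℂ) ∘ e :=
      hmp.quasiMeasurePreserving.ae_eq_comp (hA ξ)
    filter_upwards [h1, hB (A ξ), h2] with x a1 a2 a3
    rw [a1, Pi.smul_apply, a2, a3]
    rfl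

theorem map_symm_eq (e : X ≃ᵐ Y) (c : ℝ≥0) (hc : c ≠ 0) (h : μ.map e = c • ν) :
    ν.map e.symm = c⁻¹ • μ := by
  have : μ = c • ν.map e.symm := by
    rw [← Measure.map_smul, ← h, MeasurableEquiv.map_symm_map]
  rw [this, smul_smul, inv_mul_cancel₀ hc, one_smul]

theorem qmp (e : X ≃ᵐ Y) (c : ℝ≥0) (h : μ.map e = c • ν) :
    Measure.QuasiMeasurePreserving e μ ν :=
  ⟨e.measurable, by rw [h]; exact Measure.smul_absolutelyContinuous⟩

theorem exists_unitary (e : X ≃ᵐ Y) (c : ℝ≥0) (hc : c ≠ 0) (h : μ.map e = c • ν) :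
    ∃ (W : Lp ℂ 2 ν ≃ₗᵢ[ℂ] Lp ℂ 2 μ) (s : ℂ), ∀ ξ, W ξ =ᵐ[μ] fun x => s * ξ (e x) := by
  obtain ⟨W, s, hs, hW⟩ := exists_isometry e c hc h
  obtain ⟨W', s', hs', hW'⟩ := exists_isometry e.symm c⁻¹ (inv_ne_zero hc) (map_symm_eq e c hc h)
  have hsurj : Function.Surjective W := by
    intro η
    refine ⟨(s * s')⁻¹ • W' η, ?_⟩
    rw [map_smul]
    apply Lp.ext
    have h1 := Lp.coeFn_smul (s * s')⁻¹ (W (W' η))
    have h2 := (qmp e c h).ae_eq_comp (hW' η)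
    filter_upwards [h1, hW (W' η), h2] with x a1 a2 a3
    rw [a1, Pi.smul_apply, a2]
    simp only [Function.comp, MeasurableEquiv.symm_apply_apply] at a3
    rw [a3, smul_eq_mul]
    field_simp
  exact ⟨LinearIsometryEquiv.ofSurjective W hsurj, s, hW⟩

end Meas

section Grp

/-- `L^2(G)` -/
noncomputable abbrev L2 (G : Type) [Group G] [TopologicalSpace G] [IsTopologicalGroup G]
  [LocallyCompactSpace G] [MeasurableSpace G] [BorelSpace G] : Type :=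
  Lp ℂ 2 (Measure.haar : Measure G)

/-- the image of `L^1(G)` -/
def imageL1 (G : Type) [Group G] [TopologicalSpace G] [IsTopologicalGroup G]
  [LocallyCompactSpace G] [MeasurableSpace G] [BorelSpace G] : Set (L2 G →L[ℂ] L2 G) :=
  {T | ∃ f : G → ℂ, Integrable f Measure.haar ∧ IsIntegratedForm Measure.haar (lam Measure.haar) f T}

variable {G₁ : Type} [Group G₁] [TopologicalSpace G₁] [IsTopologicalGroup G₁]
  [LocallyCompactSpace G₁] [MeasurableSpace G₁] [BorelSpace G₁]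
variable {G₂ : Type} [Group G₂] [TopologicalSpace G₂] [IsTopologicalGroup G₂]
  [LocallyCompactSpace G₂] [MeasurableSpace G₂] [BorelSpace G₂]

theorem lam_coe (g : G₁) (ξ : L2 G₁) :
    lam (Measure.haar : Measure G₁) g ξ =ᵐ[Measure.haar] fun x => ξ (g⁻¹ * x) :=
  Lp.coeFn_compMeasurePreserving ξ (measurePreserving_mul_left (Measure.haar : Measure G₁) g⁻¹)

theorem exists_scalar (e : G₁ ≃ₜ* G₂) :
    ∃ c : ℝ≥0, c ≠ 0 ∧
      (Measure.haar : Measure G₁).map e.toHomeomorph.toMeasurableEquiv =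
        c • (Measure.haar : Measure G₂) := by
  have h1 : Measure.IsHaarMeasure ((Measure.haar : Measure G₁).map e) := inferInstance
  have h2 : Measure.Regular ((Measure.haar : Measure G₁).map e) :=
    Measure.Regular.map e.toHomeomorph
  exact ⟨_, (Measure.haarScalarFactor_pos_of_isHaarMeasure
      ((Measure.haar : Measure G₁).map e) (Measure.haar : Measure G₂)).ne',
    Measure.isMulLeftInvariant_eq_smul_of_regular ((Measure.haar : Measure G₁).map e) _⟩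

theorem exists_intertwiner (e : G₁ ≃ₜ* G₂) :
    ∃ W : L2 G₂ ≃ₗᵢ[ℂ] L2 G₁, ∀ g ξ, W (lam (Measure.haar : Measure G₂) (e g) ξ) = lam (Measure.haar : Measure G₁) g (W ξ) := by
  obtain ⟨c, hc, h⟩ := exists_scalar e
  obtain ⟨W, s, hW⟩ := exists_unitary _ c hc h
  refine ⟨W, fun g ξ => ?_⟩
  apply Lp.ext
  have h1 := (qmp _ c h).ae_eq_comp (lam_coe (e g) ξ)
  have h2 := (measurePreserving_mul_left (Measure.haar : Measure G₁)
    g⁻¹).quasiMeasurePreserving.ae_eq_comp (hW ξ)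
  filter_upwards [hW (lam (Measure.haar : Measure G₂) (e g) ξ), h1, lam_coe g (W ξ), h2] with x a1 a2 a3 a4
  simp only [Function.comp] at a2 a4
  rw [a1, a2, a3, a4]
  congr 2
  change (e g)⁻¹ * e x = e (g⁻¹ * x)
  rw [map_mul, map_inv]

theorem conj_mem (e : G₁ ≃ₜ* G₂) (W : L2 G₂ ≃ₗᵢ[ℂ] L2 G₁)
    (hW : ∀ g ξ, W (lam (Measure.haar : Measure G₂) (e g) ξ) = lam (Measure.haar : Measure G₁) g (W ξ)) {T : L2 G₂ →L[ℂ] L2 G₂}
    (hT : T ∈ imageL1 G₂) : W.conjStarAlgEquiv T ∈ imageL1 G₁ := by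
  obtain ⟨f, hf, hT⟩ := hT
  obtain ⟨c, hc, h⟩ := exists_scalar e
  set ε := e.toHomeomorph.toMeasurableEquiv
  have hν : (Measure.haar : Measure G₂) = c⁻¹ • (Measure.haar : Measure G₁).map ε := by
    rw [h, smul_smul, inv_mul_cancel₀ hc, one_smul]
  refine ⟨fun g => ((c⁻¹ : ℝ≥0) : ℝ) * f (ε g), ?_, fun ξ η => ?_⟩
  · refine Integrable.const_mul ?_ _
    have : Integrable f ((Measure.haar : Measure G₁).map ε) := by
      rw [h]; exact hf.smul_measure_nnreal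
    exact (integrable_map_equiv ε f).1 this
  · rw [LinearIsometryEquiv.conjStarAlgEquiv_apply_apply]
    have e1 : inner ℂ η (W (T (W.symm ξ))) = inner ℂ (W.symm η) (T (W.symm ξ)) := by
      rw [← W.inner_map_map (W.symm η), W.apply_symm_apply]
    have e0 : ∀ F : G₂ → ℂ, ∫ g, F g ∂(Measure.haar : Measure G₂) =
        ∫ g, c⁻¹ • F (ε g) ∂(Measure.haar : Measure G₁) := by
      intro F
      rw [hν, integral_smul_nnreal_measure, integral_map_equiv, NNReal.smul_def, ← integral_smul]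
      rfl
    rw [e1, hT, e0]
    congr 1
    ext g
    have e2 : inner ℂ (W.symm η) (lam (Measure.haar : Measure G₂) (ε g) (W.symm ξ)) = inner ℂ η (lam (Measure.haar : Measure G₁) g ξ) := by
      rw [← W.inner_map_map (W.symm η), W.apply_symm_apply]
      have := hW g (W.symm ξ)
      rw [W.apply_symm_apply] at this
      rw [← this]
      rfl
    rw [e2, NNReal.smul_def, Complex.real_smul, mul_assoc]

theorem conj_mem_closure (e : G₁ ≃ₜ* G₂) (W : L2 G₂ ≃ₗᵢ[ℂ] L2 G₁)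
    (hW : ∀ g ξ, W (lam (Measure.haar : Measure G₂) (e g) ξ) = lam (Measure.haar : Measure G₁) g (W ξ)) {T : L2 G₂ →L[ℂ] L2 G₂}
    (hT : T ∈ ReducedCStar G₂) : W.conjStarAlgEquiv T ∈ ReducedCStar G₁ := by
  have hcont : Continuous (W.conjStarAlgEquiv) := (StarAlgEquiv.isometry _).continuous
  exact map_mem_closure hcont hT fun T hT => conj_mem e W hW hT

theorem cstar_equiv (e : G₁ ≃ₜ* G₂) : ReducedCStarIso G₁ G₂ := by
  obtain ⟨W, hW⟩ := exists_intertwiner e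
  have hW' : ∀ g ξ, W.symm (lam (Measure.haar : Measure G₁) (e.symm g) ξ) =
      lam (Measure.haar : Measure G₂) g (W.symm ξ) := by
    intro g ξ
    have := hW (e.symm g) (W.symm ξ)
    rw [W.apply_symm_apply, e.apply_symm_apply] at this
    rw [← this, W.symm_apply_apply]
  refine ⟨W.symm.conjStarAlgEquiv, ⟨fun T hT => conj_mem_closure e.symm W.symm hW' hT,
    W.symm.conjStarAlgEquiv.injective.injOn, fun T hT => ⟨W.conjStarAlgEquiv T,
      conj_mem_closure e W hW hT, W.conjStarAlgEquiv.symm_apply_apply T⟩⟩,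
    fun S _ T _ => ⟨map_add _ _ _, map_mul _ _ _⟩,
    fun S _ => ⟨map_star _ _, fun c => map_smul _ _ _⟩⟩

end Grp

end Pool.Agent.H243Z.BM
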