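import Pool.Agent.H243Z.BM.Trees
import Pool.Agent.H243Z.BM.Transport

set_option autoImplicit false

open Topology

namespace Pool.Agent.H243Z.BM

noncomputable section

/-- The stabiliser of the colour `2` in `Sym(3)`. -/
def F3 : Subgroup (Equiv.Perm (Fin 3)) := MulAction.stabilizer (Equiv.Perm (Fin 3)) (2 : Fin 3)

/-- The stabiliser of the partition `{0,1},{2,3}` in `Sym(4)`, the dihedral group of order 8. -/
def F4 : Subgroup (Equiv.Perm (Fin 4)) where
  carrier := {σ | ∀ c c', blk (σ c) = blk (σ c') ↔ blk c = blk c'}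
  one_mem' _ _ := Iff.rfl
  mul_mem' {σ τ} hσ hτ c c' := (hσ _ _).trans (hτ _ _)
  inv_mem' {σ} hσ c c' := by
    have := hσ (σ⁻¹ c) (σ⁻¹ c')
    simpa using this.symm

abbrev G3 : Type := S3.tree.U F3
abbrev G4 : Type := S4.tree.U F4

/-- action of an element of `G3` on vertices -/
def a3 (h : G3) (x : RW × Bool) : RW × Bool := h.1.iso x
/-- action of an element of `G4` on vertices -/
def a4 (g : G4) (v : RW) : RW := g.1.iso v

theorem a3_mul (h h' : G3) (x : RW × Bool) : a3 (h * h') x = a3 h (a3 h' x) := rfl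
theorem a4_mul (h h' : G4) (x : RW) : a4 (h * h') x = a4 h (a4 h' x) := rfl
theorem a3_one (x : RW × Bool) : a3 1 x = x := rfl
theorem a4_one (x : RW) : a4 1 x = x := rfl

theorem G3_ext {h h' : G3} (e : ∀ x, a3 h x = a3 h' x) : h = h' :=
  Subtype.ext (RelIso.ext e)

theorem G4_ext {h h' : G4} (e : ∀ x, a4 h x = a4 h' x) : h = h' :=
  Subtype.ext (RelIso.ext e)

theorem a3_two (h : G3) (x : RW × Bool) : a3 h (nb3 2 x) = nb3 2 (a3 h x) := by
  have h1 := S3.act h.1 x 2
  have h2 : S3.tree.localAction h.1 x 2 = 2 := h.2 x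
  rw [h2] at h1
  exact h1

theorem a3_ne (h : G3) (x : RW × Bool) {i : Fin 3} (hi : i ≠ 2) :
    ∃ j, j ≠ 2 ∧ a3 h (nb3 i x) = nb3 j (a3 h x) := by
  have h2 : S3.tree.localAction h.1 x 2 = 2 := h.2 x
  refine ⟨S3.tree.localAction h.1 x i, fun e => hi ?_, S3.act h.1 x i⟩
  exact (S3.tree.localAction h.1 x).injective (e.trans h2.symm)

theorem a3_not (h : G3) (v : RW) (a : Bool) :
    a3 h (v, !a) = ((a3 h (v, a)).1, !(a3 h (v, a)).2) := by
  have := a3_two h (v, a)
  rwa [nb3_two, nb3_two] at this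

theorem a3_fst (h : G3) (v : RW) (a : Bool) : (a3 h (v, a)).1 = (a3 h (v, false)).1 := by
  cases a
  · rfl
  · have := congrArg Prod.fst (a3_not h v false)
    exact this

/-- the map induced on the contracted tree -/
def psi₀ (h : G3) (v : RW) : RW := (a3 h (v, false)).1

theorem psi₀_mul (h h' : G3) (v : RW) : psi₀ (h * h') v = psi₀ h (psi₀ h' v) := by
  unfold psi₀
  rw [a3_mul, ← a3_fst h (a3 h' (v, false)).1 (a3 h' (v, false)).2]

theorem psi₀_one (v : RW) : psi₀ 1 v = v := rfl

theorem psi₀_nb (h : G3) (v : RW) (c : Fin 4) :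
    ∃ c', blk c' = (a3 h (v, blk c)).2 ∧ psi₀ h (nb4 c v) = nb4 c' (psi₀ h v) := by
  obtain ⟨j, hj, e⟩ := a3_ne h (v, blk c) (idx_ne c)
  rw [nb3_ne (idx_ne c), nb3_ne hj, enc_blk] at e
  refine ⟨enc (a3 h (v, blk c)).2 j, blk_enc _ _, ?_⟩
  unfold psi₀
  rw [← a3_fst h _ (blk c), ← a3_fst h _ (blk c)]
  exact congrArg Prod.fst e

def psi₁ (h : G3) : S4.tree.Aut :=
  S4.mkAut (psi₀ h) (psi₀ h⁻¹)
    (fun (v : RW) => by rw [← psi₀_mul, inv_mul_cancel, psi₀_one])
    (fun (v : RW) => by rw [← psi₀_mul, mul_inv_cancel, psi₀_one])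
    (fun v c => (psi₀_nb h v c).imp fun _ h => h.2)
    (fun v c => (psi₀_nb h⁻¹ v c).imp fun _ h => h.2)

theorem psi₁_blk (h : G3) (v : RW) (c : Fin 4) :
    blk (S4.tree.localAction (psi₁ h) v c) = (a3 h (v, blk c)).2 := by
  obtain ⟨c', h1, h2⟩ := psi₀_nb h v c
  rw [S4.localAction_eq (psi₁ h) v c c' h2, h1]

def psi (h : G3) : G4 := ⟨psi₁ h, fun (v : RW) c c' => by
  rw [psi₁_blk h v, psi₁_blk h v]
  have := congrArg Prod.snd (a3_not h v false)
  simp only [Bool.not_false] at this
  cases blk c <;> cases blk c' <;> simp [this]⟩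

theorem a4_psi (h : G3) (v : RW) : a4 (psi h) v = psi₀ h v := rfl

/-- the block permutation -/
def beta (g : G4) (v : RW) (a : Bool) : Bool :=
  blk (S4.tree.localAction g.1 v (enc a 0))

theorem beta_blk (g : G4) (v : RW) (c : Fin 4) :
    beta g v (blk c) = blk (S4.tree.localAction g.1 v c) :=
  (g.2 v _ _).2 (blk_enc _ _)

theorem beta_not (g : G4) (v : RW) (a : Bool) : beta g v (!a) = !beta g v a := by
  have h : ¬ beta g v (!a) = beta g v a := by
    intro e
    have := (g.2 v _ _).1 e
    rw [blk_enc, blk_enc] at this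
    simp at this
  revert h
  cases beta g v (!a) <;> cases beta g v a <;> simp

theorem beta_mul (g g' : G4) (v : RW) (a : Bool) :
    beta (g * g') v a = beta g (a4 g' v) (beta g' v a) := by
  unfold beta
  have h1 := S4.tree.localAction_mul g.1 g'.1 v
  rw [show (g * g').1 = g.1 * g'.1 from rfl, h1, Equiv.Perm.mul_apply]
  exact (beta_blk g _ _).symm

theorem beta_one (v : RW) (a : Bool) : beta 1 v a = a := by
  unfold beta
  have h1 := S4.tree.localAction_one v
  rw [show (1 : G4).1 = 1 from rfl, h1]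
  exact blk_enc _ _

theorem a4_nb (g : G4) (v : RW) (c : Fin 4) :
    a4 g (nb4 c v) = nb4 (S4.tree.localAction g.1 v c) (a4 g v) := S4.act g.1 v c

theorem beta_nb (g : G4) (v : RW) (c : Fin 4) :
    beta g (nb4 c v) (blk c) = beta g v (blk c) := by
  rw [beta_blk, beta_blk]
  congr 1
  apply S4.localAction_eq
  change a4 g (nb4 c (nb4 c v)) = nb4 _ (a4 g (nb4 c v))
  rw [a4_nb g v c, nb4_invol, nb4_invol]

def phi₀ (g : G4) (x : RW × Bool) : RW × Bool := (a4 g x.1, beta g x.1 x.2)

theorem phi₀_mul (g g' : G4) (x : RW × Bool) : phi₀ (g * g') x = phi₀ g (phi₀ g' x) := by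
  simp only [phi₀, a4_mul, beta_mul]

theorem phi₀_one (x : RW × Bool) : phi₀ 1 x = x := by
  simp only [phi₀, a4_one, beta_one]

theorem phi₀_two (g : G4) (x : RW × Bool) : phi₀ g (nb3 2 x) = nb3 2 (phi₀ g x) := by
  simp only [phi₀, nb3_two, beta_not]

theorem phi₀_nb (g : G4) (x : RW × Bool) (i : Fin 3) :
    ∃ j, phi₀ g (nb3 i x) = nb3 j (phi₀ g x) := by
  by_cases hi : i = 2
  · exact ⟨2, hi ▸ phi₀_two g x⟩
  · refine ⟨idx (S4.tree.localAction g.1 x.1 (enc x.2 i)), ?_⟩
    rw [nb3_ne hi, nb3_ne (idx_ne _)]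
    have h1 := beta_nb g x.1 (enc x.2 i)
    have h2 := beta_blk g x.1 (enc x.2 i)
    rw [blk_enc] at h1 h2
    simp only [phi₀]
    rw [h1, a4_nb, h2, enc_blk]

def phi₁ (g : G4) : S3.tree.Aut :=
  S3.mkAut (phi₀ g) (phi₀ g⁻¹)
    (fun (v : RW × Bool) => by rw [← phi₀_mul, inv_mul_cancel, phi₀_one])
    (fun (v : RW × Bool) => by rw [← phi₀_mul, mul_inv_cancel, phi₀_one])
    (fun v c => phi₀_nb g v c)
    (fun v c => phi₀_nb g⁻¹ v c)

def phi (g : G4) : G3 :=
  ⟨phi₁ g, fun x => S3.localAction_eq (phi₁ g) x 2 2 (phi₀_two g x)⟩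

theorem a3_phi (g : G4) (x : RW × Bool) : a3 (phi g) x = phi₀ g x := rfl

theorem psi_phi (g : G4) : psi (phi g) = g := G4_ext fun _ => rfl

theorem phi_psi (h : G3) : phi (psi h) = h := by
  refine G3_ext fun x => ?_
  obtain ⟨v, a⟩ := x
  rw [a3_phi]
  refine Prod.ext (a3_fst h v a).symm ?_
  have := psi₁_blk h v (enc a 0)
  rw [blk_enc] at this
  exact this

theorem open3 (x y : RW × Bool) : IsOpen {h : G3 | a3 h x = y} :=
  (S3.tree.isOpen_eval x y).preimage continuous_subtype_val

theorem open4 (x y : RW) : IsOpen {h : G4 | a4 h x = y} :=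
  (S4.tree.isOpen_eval x y).preimage continuous_subtype_val

theorem continuous_psi : Continuous psi := by
  refine Continuous.subtype_mk (S4.tree.continuous_to _ fun v w => ?_) _
  have : {h : G3 | (psi₁ h).iso v = w} = ⋃ b : Bool, {h : G3 | a3 h (v, false) = (w, b)} := by
    ext h
    simp only [Set.mem_ofPred_eq, Set.mem_iUnion]
    constructor
    · intro e
      exact ⟨(a3 h (v, false)).2, Prod.ext e rfl⟩
    · rintro ⟨b, e⟩
      exact congrArg Prod.fst e
  rw [this]
  exact isOpen_iUnion fun b => open3 _ _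

theorem continuous_phi : Continuous phi := by
  refine Continuous.subtype_mk (S3.tree.continuous_to _ fun x y => ?_) _
  rw [isOpen_iff_forall_mem_open]
  intro g hg
  refine ⟨{g' : G4 | a4 g' x.1 = a4 g x.1} ∩
    {g' : G4 | a4 g' (nb4 (enc x.2 0) x.1) = a4 g (nb4 (enc x.2 0) x.1)}, ?_,
    (open4 _ _).inter (open4 _ _), rfl, rfl⟩
  rintro g' ⟨h1, h2⟩
  have h3 : a4 g' x.1 = a4 g x.1 := h1
  have h4 : a4 g' (nb4 (enc x.2 0) x.1) = a4 g (nb4 (enc x.2 0) x.1) := h2
  rw [a4_nb, a4_nb, h3] at h4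
  have h5 := nb4_inj _ _ _ h4
  have : phi₀ g' x = phi₀ g x := by
    simp only [phi₀, beta, h3, h5]
  exact this.trans hg

def groupIso : G3 ≃ₜ* G4 where
  toFun := psi
  invFun := phi
  left_inv := phi_psi
  right_inv := psi_phi
  map_mul' h h' := G4_ext fun v => psi₀_mul h h' v
  continuous_toFun := continuous_psi
  continuous_invFun := continuous_phi

/-! ### Non-discreteness -/

def tau : Equiv.Perm (Fin 4) := Equiv.swap 0 1

theorem tau_mem : tau ∈ F4 := by
  intro c c'
  revert c c'
  decide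

theorem tau_blk (c : Fin 4) : blk (tau c) = blk c := by revert c; decide
theorem tau_fix (c : Fin 4) (h : blk c = true) : tau c = c := by revert c; decide
theorem tau_tau (c : Fin 4) : tau (tau c) = c := by revert c; decide

def act (N : ℕ) : List (Fin 4) → Bool
  | [] => false
  | c :: l => if l.length + 1 = N then blk c else act N l

def sg (b : Bool) : Equiv.Perm (Fin 4) := if b then tau else 1

theorem sg_blk (b : Bool) (c : Fin 4) : blk (sg b c) = blk c := by
  cases b
  · rfl
  · exact tau_blk c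

theorem sg_sg (b : Bool) (c : Fin 4) : sg b (sg b c) = c := by
  cases b
  · rfl
  · exact tau_tau c

theorem sg_mem (b : Bool) : sg b ∈ F4 := by
  cases b
  · exact F4.one_mem
  · exact tau_mem

def tw (N : ℕ) : List (Fin 4) → List (Fin 4)
  | [] => []
  | c :: l => sg (act N l) c :: tw N l

theorem tw_length (N : ℕ) (l : List (Fin 4)) : (tw N l).length = l.length := by
  induction l with
  | nil => rfl
  | cons c l ih => simp [tw, ih]

theorem act_tw (N : ℕ) (l : List (Fin 4)) : act N (tw N l) = act N l := by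
  induction l with
  | nil => rfl
  | cons c l ih => simp only [tw, act, tw_length, sg_blk, ih]

theorem tw_tw (N : ℕ) (l : List (Fin 4)) : tw N (tw N l) = l := by
  induction l with
  | nil => rfl
  | cons c l ih => simp only [tw, act_tw, sg_sg, ih]

theorem act_short (N : ℕ) (l : List (Fin 4)) (h : l.length < N) : act N l = false := by
  induction l with
  | nil => rfl
  | cons c l ih =>
    simp only [List.length_cons] at h
    rw [act, if_neg (by omega), ih (by omega)]

theorem tw_short (N : ℕ) (l : List (Fin 4)) (h : l.length ≤ N) : tw N l = l := by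
  induction l with
  | nil => rfl
  | cons c l ih =>
    simp only [List.length_cons] at h
    rw [tw, act_short N l (by omega), ih (by omega)]
    rfl

theorem sg_step (N : ℕ) (c : Fin 4) (l : List (Fin 4)) :
    sg (act N (c :: l)) c = sg (act N l) c := by
  by_cases h : l.length + 1 = N
  · rw [act, if_pos h, act_short N l (by omega)]
    cases hb : blk c
    · rfl
    · exact tau_fix c hb
  · rw [act, if_neg h]

theorem tw_chain (N : ℕ) (l : List (Fin 4)) (h : l.IsChain (· ≠ ·)) :
    (tw N l).IsChain (· ≠ ·) := by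
  induction l with
  | nil => simp [tw]
  | cons c l ih =>
    cases l with
    | nil => simp [tw]
    | cons b l =>
      obtain ⟨h1, h2⟩ := List.isChain_cons_cons.1 h
      have := ih h2
      rw [tw] at this
      rw [tw, tw]
      refine List.IsChain.cons_cons ?_ this
      rw [← sg_step N b l]
      exact fun e => h1 ((sg _).injective e)

def twR (N : ℕ) (v : RW) : RW := ⟨tw N v.1, tw_chain N v.1 v.2⟩

theorem twR_twR (N : ℕ) (v : RW) : twR N (twR N v) = v := Subtype.ext (tw_tw N v.1)

theorem twR_nb (N : ℕ) (v : RW) (c : Fin 4) :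
    twR N (nb4 c v) = nb4 (sg (act N v.1) c) (twR N v) := by
  apply Subtype.ext
  by_cases h : v.1.head? = some c
  · obtain ⟨l, hl⟩ := v
    cases l with
    | nil => simp at h
    | cons b l =>
      simp only [List.head?_cons, Option.some.injEq] at h
      subst h
      have h2 : (twR N ⟨b :: l, hl⟩).1.head? = some (sg (act N (b :: l)) b) := by
        rw [sg_step]; rfl
      rw [nb4_pos h2]
      change tw N (nb4 b ⟨b :: l, hl⟩).1 = _
      rw [nb4_pos (c := b) (v := ⟨b :: l, hl⟩) rfl]
      rfl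
  · have h2 : ¬ (twR N v).1.head? = some (sg (act N v.1) c) := by
      obtain ⟨l, hl⟩ := v
      cases l with
      | nil => simp [twR, tw]
      | cons b l =>
        intro e
        have e2 : sg (act N l) b = sg (act N (b :: l)) c := Option.some.inj e
        rw [← sg_step] at e2
        exact h (congrArg some ((sg _).injective e2))
    rw [nb4_neg h2]
    change tw N (nb4 c v).1 = _
    rw [nb4_neg h]
    rfl

def twA (N : ℕ) : S4.tree.Aut :=
  S4.mkAut (twR N) (twR N) (twR_twR N) (twR_twR N)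
    (fun v c => ⟨_, twR_nb N v c⟩) (fun v c => ⟨_, twR_nb N v c⟩)

def twG (N : ℕ) : G4 := ⟨twA N, fun (v : RW) => by
  have : S4.tree.localAction (twA N) v = sg (act N v.1) :=
    Equiv.ext fun c => S4.localAction_eq (twA N) v c _ (twR_nb N v c)
  rw [this]
  exact sg_mem _⟩

def alt : ℕ → List (Fin 4)
  | 0 => []
  | n + 1 => (if n % 2 = 0 then 2 else 3) :: alt n

theorem alt_length (n : ℕ) : (alt n).length = n := by
  induction n with
  | zero => rfl
  | succ n ih => simp [alt, ih]

theorem alt_chain (n : ℕ) : (alt n).IsChain (· ≠ ·) := by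
  induction n with
  | zero => simp [alt]
  | succ n ih =>
    cases n with
    | zero => simp [alt]
    | succ n =>
      rw [alt] at ih
      rw [alt, alt]
      refine List.IsChain.cons_cons ?_ ih
      split_ifs <;> omega

theorem twG_ne (n : ℕ) : twG (n + 1) ≠ 1 := by
  intro e
  have hc : (0 :: alt (n + 1)).IsChain (· ≠ ·) := by
    have := alt_chain (n + 1)
    rw [alt] at this ⊢
    refine List.IsChain.cons_cons ?_ this
    split_ifs <;> decide
  have h1 : a4 (twG (n + 1)) ⟨_, hc⟩ = ⟨_, hc⟩ := by rw [e]; rfl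
  have h2 : tw (n + 1) (0 :: alt (n + 1)) = 0 :: alt (n + 1) := congrArg Subtype.val h1
  rw [tw] at h2
  have h3 : act (n + 1) (alt (n + 1)) = true := by
    rw [alt, act, if_pos (by rw [alt_length])]
    split_ifs <;> decide
  rw [h3] at h2
  have h4 : sg true 0 = 0 := (List.cons.inj h2).1
  revert h4
  decide

theorem twG_tendsto : Filter.Tendsto (fun n => twG (n + 1)) Filter.atTop (𝓝 1) := by
  rw [tendsto_subtype_rng]
  change Filter.Tendsto (fun n => twA (n + 1)) Filter.atTop (𝓝 1)
  rw [nhds_iInf, Filter.tendsto_iInf]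
  intro v
  let _ : TopologicalSpace S4.tree.V := ⊥
  have : DiscreteTopology S4.tree.V := ⟨rfl⟩
  rw [nhds_induced, nhds_discrete, Filter.tendsto_comap_iff, Filter.tendsto_pure]
  obtain ⟨l, hl⟩ := v
  filter_upwards [Filter.eventually_ge_atTop l.length] with n hn
  exact Subtype.ext (tw_short (n + 1) l (by omega))

theorem not_discrete4 : ¬ DiscreteTopology G4 := by
  intro h
  have h1 := twG_tendsto
  rw [nhds_discrete, Filter.tendsto_pure] at h1
  obtain ⟨n, hn⟩ := h1.exists
  exact twG_ne n hn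

theorem not_discrete3 : ¬ DiscreteTopology G3 := fun _ =>
  not_discrete4 (groupIso.symm.toHomeomorph.isEmbedding.discreteTopology)

end

end Pool.Agent.H243Z.BM
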