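import Pool.Agent.H243Z.BM.Defs
set_option autoImplicit false
open MeasureTheory Topology
namespace Pool.Agent.H243Z.BM
variable (G : Type) [Group G] [TopologicalSpace G] [IsTopologicalGroup G] [LocallyCompactSpace G]
  [MeasurableSpace G] [BorelSpace G]

theorem continuous_lam (ξ : Lp ℂ 2 (Measure.haar : Measure G)) : Continuous fun g : G => lam (Measure.haar : Measure G) g ξ := by
  let φ : G → C(G, G) := fun g => ⟨fun x => g⁻¹ * x, by fun_prop⟩
  have hφ : Continuous φ := ContinuousMap.continuous_of_continuous_uncurry _ (by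
    change Continuous fun p : G × G => p.1⁻¹ * p.2
    fun_prop)
  exact Continuous.compMeasurePreservingLp (f := fun _ : G => ξ) (g := φ) continuous_const hφ
    (fun g => measurePreserving_mul_left (Measure.haar : Measure G) g⁻¹) (by norm_num)

theorem norm_lam (g : G) (ξ : Lp ℂ 2 (Measure.haar : Measure G)) : ‖lam (Measure.haar : Measure G) g ξ‖ = ‖ξ‖ :=
  (Lp.compMeasurePreservingₗᵢ ℂ (fun x : G => g⁻¹ * x)
    (measurePreserving_mul_left (Measure.haar : Measure G) g⁻¹)).norm_map ξ

theorem integrable_coeff {f : G → ℂ} (hf : Integrable f (Measure.haar : Measure G)) (ξ η : Lp ℂ 2 (Measure.haar : Measure G)) :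
    Integrable (fun g => f g * inner ℂ η (lam (Measure.haar : Measure G) g ξ)) (Measure.haar : Measure G) := by
  refine hf.mul_bdd (c := ‖η‖ * ‖ξ‖)
    (continuous_const.inner (continuous_lam G ξ)).aestronglyMeasurable
    (Filter.Eventually.of_forall fun g => ?_)
  rw [← norm_lam G g ξ]
  exact norm_inner_le_norm _ _

/-- Every integrable function has exactly one integrated form, so the set whose closure is `ReducedCStar`
is the image of `L^1(G)`. -/
theorem existsUnique_integratedForm {f : G → ℂ} (hf : Integrable f (Measure.haar : Measure G)) :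
    ∃! T, IsIntegratedForm Measure.haar (lam (Measure.haar : Measure G)) f T := by
  let B₀ : Lp ℂ 2 (Measure.haar : Measure G) →ₗ⋆[ℂ] Lp ℂ 2 (Measure.haar : Measure G) →ₗ[ℂ] ℂ := LinearMap.mk₂'ₛₗ (starRingEnd ℂ) (RingHom.id ℂ)
    (fun η ξ => ∫ g, f g * inner ℂ η (lam (Measure.haar : Measure G) g ξ) ∂(Measure.haar : Measure G))
    (fun η η' ξ => by
      rw [← integral_add (integrable_coeff G hf _ _) (integrable_coeff G hf _ _)]
      simp only [inner_add_left, mul_add])
    (fun c η ξ => by
      rw [← integral_smul]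
      simp only [inner_smul_left, smul_eq_mul, mul_left_comm])
    (fun η ξ ξ' => by
      rw [← integral_add (integrable_coeff G hf _ _) (integrable_coeff G hf _ _)]
      simp only [map_add, inner_add_right, mul_add])
    (fun c η ξ => by
      rw [← integral_smul]
      simp only [map_smul, inner_smul_right, smul_eq_mul, RingHom.id_apply, mul_left_comm])
  have hB : ∀ η ξ, ‖B₀ η ξ‖ ≤ (∫ g, ‖f g‖ ∂(Measure.haar : Measure G)) * ‖η‖ * ‖ξ‖ := by
    intro η ξ
    rw [mul_assoc, ← integral_mul_const]
    refine norm_integral_le_of_norm_le (hf.norm.mul_const _)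
      (Filter.Eventually.of_forall fun g => ?_)
    rw [norm_mul, ← norm_lam G g ξ]
    exact mul_le_mul_of_nonneg_left (norm_inner_le_norm _ _) (norm_nonneg _)
  let S := InnerProductSpace.continuousLinearMapOfBilin (B₀.mkContinuous₂ _ hB)
  refine ⟨ContinuousLinearMap.adjoint S, fun ξ η => ?_, fun T hT => ?_⟩
  · rw [ContinuousLinearMap.adjoint_inner_right,
      InnerProductSpace.continuousLinearMapOfBilin_apply]
    rfl
  · ext1 ξ
    refine ext_inner_left ℂ fun η => ?_
    rw [hT, ContinuousLinearMap.adjoint_inner_right,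
      InnerProductSpace.continuousLinearMapOfBilin_apply]
    rfl
end Pool.Agent.H243Z.BM
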