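import Pool.Agent.H243Z.BM.Defs

set_option autoImplicit false

namespace Pool.Agent.H243Z.BM

/-- Data producing a legally coloured tree from a family of involutions and a height function. -/
structure Sys (d : ℕ) where
  V : Type
  nb : Fin d → V → V
  ht : V → ℕ
  root : V
  c₀ : Fin d
  invol : ∀ c v, nb c (nb c v) = v
  inj : ∀ c c' v, nb c v = nb c' v → c = c'
  ht_ne : ∀ c v, ht (nb c v) ≠ ht v
  down : ∀ v, v ≠ root → ∃ c, ht (nb c v) < ht v
  uniq : ∀ v c c', ht (nb c v) < ht v → ht (nb c' v) < ht v → c = c'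

namespace Sys

variable {d : ℕ} (S : Sys d)

def graph : SimpleGraph S.V where
  Adj v w := ∃ c, S.nb c v = w
  symm := ⟨fun v w ⟨c, h⟩ => ⟨c, by rw [← h, S.invol]⟩⟩
  loopless := ⟨fun v ⟨c, h⟩ => S.ht_ne c v (by rw [h])⟩

theorem adj_iff (v w : S.V) : S.graph.Adj v w ↔ ∃ c, S.nb c v = w := Iff.rfl

theorem reach (v : S.V) : S.graph.Reachable v S.root := by
  induction' hn : S.ht v using Nat.strong_induction_on with n ih generalizing v
  by_cases h : v = S.root
  · rw [h]
  · obtain ⟨c, hc⟩ := S.down v h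
    exact (SimpleGraph.Adj.reachable (show S.graph.Adj v (S.nb c v) from ⟨c, rfl⟩)).trans
      (ih _ (hn ▸ hc) _ rfl)

def step (a b : S.V) : Prop := S.graph.Adj a b ∧ S.ht b < S.ht a

theorem step_uniq {a b b' : S.V} (h : S.step a b) (h' : S.step a b') : b = b' := by
  obtain ⟨⟨c, rfl⟩, h⟩ := h
  obtain ⟨⟨c', rfl⟩, h'⟩ := h'
  rw [S.uniq a c c' h h']

theorem bridge {u p : S.V} (h : S.step u p) : S.graph.IsBridge s(u, p) := by
  rw [SimpleGraph.isBridge_iff]
  intro hr
  have hht : ∀ x, Relation.ReflTransGen S.step x u → S.ht u ≤ S.ht x := by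
    intro x hx
    induction hx using Relation.ReflTransGen.head_induction_on with
    | refl => exact le_rfl
    | head h1 _ ih => exact ih.trans h1.2.le
  have key : ∀ y, (S.graph.deleteEdges {s(u, p)}).Reachable u y →
      Relation.ReflTransGen S.step y u := by
    intro y hy
    rw [SimpleGraph.reachable_iff_reflTransGen] at hy
    induction hy with
    | refl => exact Relation.ReflTransGen.refl
    | @tail x y _ hxy ih =>
      rw [SimpleGraph.deleteEdges_adj] at hxy
      obtain ⟨hadj, hne⟩ := hxy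
      have hne' : S.ht y ≠ S.ht x := by
        obtain ⟨c, rfl⟩ := hadj
        exact S.ht_ne c x
      rcases lt_or_gt_of_ne hne' with hlt | hlt
      · have hs : S.step x y := ⟨hadj, hlt⟩
        rcases ih.cases_head with rfl | ⟨z, hz, hz'⟩
        · exact absurd (by rw [S.step_uniq hs h]; rfl) hne
        · rw [S.step_uniq hs hz]; exact hz'
      · exact Relation.ReflTransGen.head ⟨hadj.symm, hlt⟩ ih
  exact absurd (hht _ (key p hr)) (not_le.2 h.2)

theorem isTree : S.graph.IsTree := by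
  refine ⟨?_, ?_⟩
  · have : Nonempty S.V := ⟨S.root⟩
    exact ⟨fun u v => (S.reach u).trans (S.reach v).symm⟩
  · rw [SimpleGraph.isAcyclic_iff_forall_adj_isBridge]
    intro v w h
    have hne' : S.ht w ≠ S.ht v := by
      obtain ⟨c, rfl⟩ := h
      exact S.ht_ne c v
    rcases lt_or_gt_of_ne hne' with hlt | hlt
    · exact S.bridge ⟨h, hlt⟩
    · rw [Sym2.eq_swap]; exact S.bridge ⟨h.symm, hlt⟩

open Classical in
noncomputable def col₀ (v w : S.V) : Fin d := if h : ∃ c, S.nb c v = w then h.choose else S.c₀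

theorem col₀_nb (c : Fin d) (v : S.V) : S.col₀ v (S.nb c v) = c := by
  have h : ∃ c', S.nb c' v = S.nb c v := ⟨c, rfl⟩
  rw [col₀, dif_pos h]
  exact S.inj _ _ _ h.choose_spec

theorem col₀_symm (v w : S.V) : S.col₀ v w = S.col₀ w v := by
  by_cases h : ∃ c, S.nb c v = w
  · obtain ⟨c, rfl⟩ := h
    have h2 := S.col₀_nb c (S.nb c v)
    rw [S.invol] at h2
    rw [S.col₀_nb, h2]
  · have h' : ¬ ∃ c, S.nb c w = v := fun ⟨c, hc⟩ => h ⟨c, by rw [← hc, S.invol]⟩
    rw [col₀, col₀, dif_neg h, dif_neg h']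

noncomputable def tree : LegalTree d where
  V := S.V
  graph := S.graph
  isTree := S.isTree
  col := Sym2.lift ⟨S.col₀, S.col₀_symm⟩
  legal v := by
    constructor
    · rintro ⟨w, c, rfl⟩ ⟨w', c', rfl⟩ h
      simp only [Sym2.lift_mk, S.col₀_nb] at h
      subst h
      rfl
    · intro c
      exact ⟨⟨S.nb c v, c, rfl⟩, by simp only [Sym2.lift_mk, S.col₀_nb]⟩

theorem col_nb (c : Fin d) (v : S.V) : S.tree.col s(v, S.nb c v) = c := S.col₀_nb c v

theorem localAction_eq (g : S.tree.Aut) (v : S.V) (c c' : Fin d)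
    (h : g.iso (S.nb c v) = S.nb c' (g.iso v)) : S.tree.localAction g v c = c' := by
  have h1 := S.tree.localAction_col g (v := v) (w := S.nb c v) ⟨c, rfl⟩
  rw [S.col_nb, h] at h1
  rw [h1]
  exact S.col_nb c' _

theorem act (g : S.tree.Aut) (v : S.V) (c : Fin d) :
    g.iso (S.nb c v) = S.nb (S.tree.localAction g v c) (g.iso v) := by
  have h1 : S.graph.Adj (g.iso v) (g.iso (S.nb c v)) :=
    g.iso.map_rel_iff.2 (show S.graph.Adj v (S.nb c v) from ⟨c, rfl⟩)
  obtain ⟨c', hc'⟩ := h1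
  rw [S.localAction_eq g v c c' hc'.symm, hc']

/-- An automorphism from a bijection that, with its inverse, preserves adjacency. -/
def mkAut (f f' : S.V → S.V) (h1 : ∀ v, f' (f v) = v) (h2 : ∀ v, f (f' v) = v)
    (h3 : ∀ v c, ∃ c', f (S.nb c v) = S.nb c' (f v))
    (h4 : ∀ v c, ∃ c', f' (S.nb c v) = S.nb c' (f' v)) : S.tree.Aut :=
  (⟨⟨f, f', h1, h2⟩, fun {a b} => by
    constructor
    · rintro ⟨c, hc⟩
      obtain ⟨c', hc'⟩ := h4 (f a) c
      refine ⟨c', ?_⟩
      have hc₂ : S.nb c (f a) = f b := hc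
      rw [hc₂, h1, h1] at hc'
      exact hc'.symm
    · rintro ⟨c, rfl⟩
      obtain ⟨c', hc'⟩ := h3 a c
      exact ⟨c', hc'.symm⟩⟩ : S.graph ≃g S.graph)

theorem mkAut_apply (f f' : S.V → S.V) (h1 h2 h3 h4) (v : S.V) :
    (S.mkAut f f' h1 h2 h3 h4).iso v = f v := rfl

end Sys

/-! ### The 4-regular tree of reduced words -/

/-- Reduced words. -/
abbrev RW : Type := {l : List (Fin 4) // l.IsChain (· ≠ ·)}

def nb4 (c : Fin 4) (v : RW) : RW :=
  if h : v.1.head? = some c then ⟨v.1.tail, v.2.tail⟩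
  else ⟨c :: v.1, by
    obtain ⟨l, hl⟩ := v
    cases l with
    | nil => simp
    | cons a l =>
      refine List.IsChain.cons_cons ?_ hl
      rintro rfl
      simp at h⟩

theorem nb4_pos {c : Fin 4} {v : RW} (h : v.1.head? = some c) : (nb4 c v).1 = v.1.tail := by
  rw [nb4, dif_pos h]

theorem nb4_neg {c : Fin 4} {v : RW} (h : ¬ v.1.head? = some c) : (nb4 c v).1 = c :: v.1 := by
  rw [nb4, dif_neg h]

theorem nb4_len (c : Fin 4) (v : RW) :
    (v.1.head? = some c ∧ (nb4 c v).1.length + 1 = v.1.length) ∨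
      (¬ v.1.head? = some c ∧ (nb4 c v).1.head? = some c ∧
        (nb4 c v).1.length = v.1.length + 1) := by
  by_cases h : v.1.head? = some c
  · left
    refine ⟨h, ?_⟩
    rw [nb4_pos h]
    obtain ⟨l, hl⟩ := v
    cases l with
    | nil => simp at h
    | cons a l => simp
  · right
    rw [nb4_neg h]
    simp [h]

theorem nb4_invol (c : Fin 4) (v : RW) : nb4 c (nb4 c v) = v := by
  apply Subtype.ext
  by_cases h : v.1.head? = some c
  · have h2 : ¬ (nb4 c v).1.head? = some c := by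
      rw [nb4_pos h]
      obtain ⟨l, hl⟩ := v
      match l, hl, h with
      | [], _, h => simp at h
      | [a], _, h => simp
      | a :: b :: l, hl, h =>
        simp only [List.head?_cons, Option.some.injEq] at h
        subst h
        have := (List.isChain_cons_cons.1 hl).1
        simpa using this.symm
    rw [nb4_neg h2, nb4_pos h]
    obtain ⟨l, hl⟩ := v
    cases l with
    | nil => simp at h
    | cons a l => simpa using h.symm
  · have h2 : (nb4 c v).1.head? = some c := by rw [nb4_neg h]; rfl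
    rw [nb4_pos h2, nb4_neg h]
    rfl

theorem nb4_inj (c c' : Fin 4) (v : RW) (h : nb4 c v = nb4 c' v) : c = c' := by
  rcases nb4_len c v with ⟨h1, h2⟩ | ⟨-, h1, h2⟩ <;>
    rcases nb4_len c' v with ⟨h3, h4⟩ | ⟨-, h3, h4⟩
  · rw [h1] at h3; exact Option.some.inj h3
  · rw [h] at h2; omega
  · rw [h] at h2; omega
  · rw [h, h3] at h1; exact (Option.some.inj h1).symm

def root4 : RW := ⟨[], by simp⟩

def S4 : Sys 4 where
  V := RW
  nb := nb4
  ht v := v.1.length
  root := root4
  c₀ := 0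
  invol := nb4_invol
  inj := nb4_inj
  ht_ne c v := by rcases nb4_len c v with ⟨-, h2⟩ | ⟨-, -, h2⟩ <;> omega
  down v hv := by
    obtain ⟨l, hl⟩ := v
    cases l with
    | nil => exact absurd rfl hv
    | cons a l =>
      refine ⟨a, ?_⟩
      rw [nb4_pos (c := a) (v := ⟨a :: l, hl⟩) rfl]
      simp
  uniq v c c' h h' := by
    rcases nb4_len c v with ⟨h1, h2⟩ | ⟨-, h1, h2⟩ <;>
      rcases nb4_len c' v with ⟨h3, h4⟩ | ⟨-, h3, h4⟩
    · rw [h1] at h3; exact Option.some.inj h3
    all_goals omega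

/-! ### The 3-regular tree obtained by blowing up each vertex into an edge -/

def blk (c : Fin 4) : Bool := decide (2 ≤ c.val)

def idx (c : Fin 4) : Fin 3 := if c.val % 2 = 0 then 0 else 1

def enc (a : Bool) (i : Fin 3) : Fin 4 :=
  if a then (if i = 0 then 2 else 3) else (if i = 0 then 0 else 1)

theorem blk_enc (a : Bool) (i : Fin 3) : blk (enc a i) = a := by revert a i; decide

theorem enc_blk (c : Fin 4) : enc (blk c) (idx c) = c := by revert c; decide

theorem idx_ne (c : Fin 4) : idx c ≠ 2 := by revert c; decide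

theorem idx_enc (a : Bool) (i : Fin 3) (h : i ≠ 2) : idx (enc a i) = i := by
  revert a i; decide

def nb3 (i : Fin 3) (x : RW × Bool) : RW × Bool :=
  if i = 2 then (x.1, !x.2) else (nb4 (enc x.2 i) x.1, x.2)

theorem nb3_two (x : RW × Bool) : nb3 2 x = (x.1, !x.2) := by simp [nb3]

theorem nb3_ne {i : Fin 3} (h : i ≠ 2) (x : RW × Bool) :
    nb3 i x = (nb4 (enc x.2 i) x.1, x.2) := by simp [nb3, h]

def top (v : RW) : Bool := match v.1.head? with
  | none => false
  | some c => blk c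

theorem top_eq {v : RW} {c : Fin 4} (h : v.1.head? = some c) : top v = blk c := by
  simp [top, h]

def ht3 (x : RW × Bool) : ℕ := 2 * x.1.1.length + if x.2 = top x.1 then 0 else 1

theorem ht3_two (x : RW × Bool) :
    (x.2 = top x.1 ∧ ht3 (nb3 2 x) = ht3 x + 1) ∨ (x.2 ≠ top x.1 ∧ ht3 (nb3 2 x) + 1 = ht3 x) := by
  obtain ⟨v, a⟩ := x
  rw [nb3_two]
  simp only [ht3]
  cases a <;> cases top v <;> simp

theorem ht3_ne {i : Fin 3} (h : i ≠ 2) (x : RW × Bool) :
    (x.1.1.head? = some (enc x.2 i) ∧ ht3 (nb3 i x) < ht3 x) ∨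
      (¬ x.1.1.head? = some (enc x.2 i) ∧ ht3 x < ht3 (nb3 i x)) := by
  obtain ⟨v, a⟩ := x
  rw [nb3_ne h]
  simp only [ht3]
  rcases nb4_len (enc a i) v with ⟨h1, h2⟩ | ⟨h0, h1, h2⟩
  · left
    refine ⟨h1, ?_⟩
    split_ifs <;> omega
  · right
    refine ⟨h0, ?_⟩
    split_ifs <;> omega

def S3 : Sys 3 where
  V := RW × Bool
  nb := nb3
  ht := ht3
  root := (root4, false)
  c₀ := 0
  invol i x := by
    by_cases h : i = 2
    · subst h; simp [nb3_two]
    · rw [nb3_ne h, nb3_ne h]; simp [nb4_invol]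
  inj i j x hx := by
    by_cases hi : i = 2 <;> by_cases hj : j = 2
    · rw [hi, hj]
    · rw [hi, nb3_two, nb3_ne hj] at hx
      simpa using congrArg Prod.snd hx
    · rw [hj, nb3_two, nb3_ne hi] at hx
      simpa using congrArg Prod.snd hx
    · rw [nb3_ne hi, nb3_ne hj] at hx
      have := congrArg idx (nb4_inj _ _ _ (congrArg Prod.fst hx))
      rwa [idx_enc _ _ hi, idx_enc _ _ hj] at this
  ht_ne i x := by
    by_cases h : i = 2
    · subst h
      rcases ht3_two x with ⟨-, h⟩ | ⟨-, h⟩ <;> omega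
    · rcases ht3_ne h x with ⟨-, h⟩ | ⟨-, h⟩ <;> omega
  down x hx := by
    rcases ht3_two x with ⟨h1, -⟩ | ⟨-, h⟩
    · obtain ⟨⟨l, hl⟩, a⟩ := x
      cases l with
      | nil => exact absurd (by simp only [top] at h1; rw [show a = false from h1]; rfl) hx
      | cons c l =>
        have h2 : a = blk c := h1
        refine ⟨idx c, ?_⟩
        rcases ht3_ne (idx_ne c) (⟨c :: l, hl⟩, a) with ⟨-, h⟩ | ⟨h, -⟩
        · exact h
        · exact absurd (by rw [h2, enc_blk]; rfl) h
    · exact ⟨2, by omega⟩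
  uniq x i j hi hj := by
    have key : ∀ k : Fin 3, k ≠ 2 → ht3 (nb3 k x) < ht3 x → x.1.1.head? = some (enc x.2 k) := by
      intro k hk h
      rcases ht3_ne hk x with ⟨h1, -⟩ | ⟨-, h1⟩
      · exact h1
      · omega
    have key2 : ht3 (nb3 2 x) < ht3 x → x.2 ≠ top x.1 := by
      intro h
      rcases ht3_two x with ⟨-, h1⟩ | ⟨h1, -⟩
      · omega
      · exact h1
    by_cases h1 : i = 2 <;> by_cases h2 : j = 2
    · rw [h1, h2]
    · subst h1
      exact absurd (by rw [top_eq (key j h2 hj), blk_enc]) (key2 hi)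
    · subst h2
      exact absurd (by rw [top_eq (key i h1 hi), blk_enc]) (key2 hj)
    · have := congrArg idx (Option.some.inj ((key i h1 hi).symm.trans (key j h2 hj)))
      rwa [idx_enc _ _ h1, idx_enc _ _ h2] at this

end Pool.Agent.H243Z.BM
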